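import Pool.Agent.N794.CG.Dom
import Pool.Agent.N384.MQ.Main
import Pool.Agent.H46FF.Geo

/-!
# Residues with small Fourier coefficients have a decaying characteristic function
-/

set_option autoImplicit false

namespace Pool.Agent.H39FR

open Finset Filter
open Pool.Agent.H807R2.Dav (ee norm_ee ee_add)
open Pool.Agent.N384.MQ
open Pool.Agent.TH872.Mir (Far farCount)
open Pool.Agent.R459.Eq (Decays)

/-- a frequency with many places far from the integers is not close to an integer -/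
lemma far_dist (k L : ℕ) (hL : 1 ≤ L) (θ : ℝ) (h : L ≤ farCount 2 1 k θ) (n : ℤ) :
    (2 : ℝ) ^ L / 2 ^ (k + 2) ≤ |θ - n| := by
  classical
  by_contra hcon
  push Not at hcon
  unfold farCount at h
  have hLk : L ≤ k := h.trans ((card_filter_le _ _).trans (by rw [card_range]))
  have hsub : ((range k).filter (fun j => Far (1 / ((2 : ℕ) : ℝ) ^ 2) (((1 : ℕ) : ℝ) * (((2 : ℕ) : ℝ) ^ j * θ)))) ⊆
      Ico (k - L + 1) k := by
    intro j hj
    rw [mem_filter, mem_range] at hj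
    obtain ⟨hj1, hj2⟩ := hj
    rw [mem_Ico]
    refine ⟨?_, hj1⟩
    by_contra hjk
    have hjle : j + L ≤ k := by omega
    have h1 := hj2 (2 ^ j * n)
    have h2 : ((1 : ℕ) : ℝ) * (((2 : ℕ) : ℝ) ^ j * θ) - ((2 ^ j * n : ℤ) : ℝ) = 2 ^ j * (θ - n) := by
      push_cast
      ring
    rw [h2, abs_mul, abs_of_pos (by positivity)] at h1
    have h3 : (2 : ℝ) ^ j * |θ - n| < 2 ^ j * (2 ^ L / 2 ^ (k + 2)) :=
      mul_lt_mul_of_pos_left hcon (by positivity)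
    have h4 : (2 : ℝ) ^ j * (2 ^ L / 2 ^ (k + 2)) ≤ 1 / 4 := by
      rw [← mul_div_assoc, ← pow_add, div_le_div_iff₀ (by positivity) (by norm_num), pow_add 2 k 2]
      have h5 : (2 : ℝ) ^ (j + L) ≤ 2 ^ k := pow_le_pow_right₀ (by norm_num) hjle
      linarith
    norm_num at h1
    linarith
  have h5 := (h.trans (card_le_card hsub))
  rw [Nat.card_Ico] at h5
  omega

lemma dis_Sm (q : ℕ) [NeZero q] {ι : Type} (s : Finset ι) (hs : s.Nonempty) (y : ι → ZMod q) (η : ℝ)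
    (hf : Flat q η s y) : Sm q η (fun v => (dis s y v : ℂ)) := by
  have hq1 : 1 ≤ q := Nat.pos_of_ne_zero (NeZero.ne q)
  have hs0 : (0 : ℝ) < s.card := by exact_mod_cast hs.card_pos
  have hsum1 : ∑ v ∈ range q, dis s y v = 1 := by
    have h1 := dis_sum_real s y q le_rfl (fun _ => 1)
    simp only [mul_one, sum_const, nsmul_eq_mul] at h1
    rw [h1, div_self hs0.ne']
  refine ⟨hq1, ?_, fun h hh => ?_⟩
  · rw [← Complex.ofReal_sum, hsum1]
    simp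
  · rw [dis_sum s y q le_rfl (fun v => ee ((h : ℝ) * v / q))]
    have h1 : ∑ i ∈ s, ee ((h : ℝ) * (((y i).val : ℕ) : ℝ) / q) = ∑ i ∈ s, (ZMod.stdAddChar ((h : ZMod q) * y i) : ℂ) := by
      refine sum_congr rfl fun i _ => ?_
      have e1 : (h : ZMod q) * y i = ((h * ((y i).val : ℤ) : ℤ) : ZMod q) := by
        push_cast
        rw [ZMod.natCast_zmod_val]
      rw [e1, std_ee']
      congr 1
      push_cast
      ring
    have h2 := hf (h : ZMod q) (by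
      intro h0
      exact hh ((ZMod.intCast_zmod_eq_zero_iff_dvd h q).1 h0))
    rw [h1, norm_mul, norm_div, norm_one, Complex.norm_natCast]
    calc 1 / (s.card : ℝ) * ‖∑ i ∈ s, (ZMod.stdAddChar ((h : ZMod q) * y i) : ℂ)‖ ≤
        1 / (s.card : ℝ) * (η * s.card) := mul_le_mul_of_nonneg_left h2 (by positivity)
      _ = η := by field_simp

/-- **Decay.** -/
theorem flat_decays (c : ℝ) (hc : 0 < c) : ∃ A q₀ : ℕ, ∀ q : ℕ, q₀ ≤ q → ∀ [NeZero q] (ι : Type) (s : Finset ι),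
    s.Nonempty → ∀ y : ι → ZMod q, Flat q ((q : ℝ) ^ (-c)) s y →
    Decays 2 1 A (Nat.log 2 q + 1) (1 / 2) 1 s (fun _ => 1 / (s.card : ℝ)) (fun i => ((y i).val : ℤ)) := by
  obtain ⟨q₁, h1⟩ := Pool.Agent.H46FF.ev_log_rpow 2 (δ := c / 2) (by positivity)
  obtain ⟨q₂, h2⟩ := eventually_atTop.1 (ev_log_ge (90 * (2 : ℝ) ^ (c / 2)))
  refine ⟨5 + ⌈2 / c⌉₊, q₁ + q₂ + 3, fun q hq _ ι s hs y hf => ?_⟩
  have hs0 : (0 : ℝ) < s.card := by exact_mod_cast hs.card_pos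
  have hq0 : (0 : ℝ) < q := by exact_mod_cast (by omega : 0 < q)
  have hq3 : (3 : ℝ) ≤ q := by exact_mod_cast (by omega : 3 ≤ q)
  refine ⟨fun i _ => by positivity, by rw [sum_const, nsmul_eq_mul, mul_one_div, div_self hs0.ne'],
    fun θ N hN1 hN2 => ?_⟩
  obtain ⟨A, hA⟩ : ∃ A, A = 5 + ⌈2 / c⌉₊ := ⟨_, rfl⟩
  rw [← hA] at hN1 hN2
  obtain ⟨k, hk⟩ : ∃ k, k = Nat.log 2 q + 1 := ⟨_, rfl⟩
  rw [← hk] at hN1 hN2
  have hA5 : 5 ≤ A := by omega
  have hAc : 2 / c ≤ A := by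
    rw [hA]
    push_cast
    have := Nat.le_ceil (2 / c)
    linarith
  -- the scale
  have hk2 : (2 : ℝ) ^ k ≤ 2 * q := by
    have h3 : 2 ^ (Nat.log 2 q) ≤ q := Nat.pow_log_le_self 2 (by omega)
    have h4 : (2 : ℝ) ^ (Nat.log 2 q) ≤ q := by exact_mod_cast h3
    rw [hk, pow_succ]
    linarith
  obtain ⟨δ, hδ⟩ : ∃ δ : ℝ, δ = (2 : ℝ) ^ (A * (N + 1)) / 2 ^ (k + 2) := ⟨_, rfl⟩
  have hδ0 : 0 < δ := by rw [hδ]; positivity
  have hL1 : 1 ≤ A * (N + 1) := Nat.mul_pos (by omega) (by omega)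
  have hdist : ∀ n : ℤ, δ ≤ |θ - n| := by
    intro n
    rw [hδ]
    refine far_dist k (A * (N + 1)) hL1 θ ?_ n
    rw [Int.cast_one, one_mul] at hN1
    exact hN1
  have hη0 : 0 ≤ (q : ℝ) ^ (-c) := by positivity
  have hchar := (dis_Sm q s hs y _ hf).char hη0 θ δ hδ0 hdist
  rw [dis_sum s y q le_rfl (fun v => ee (θ * v))] at hchar
  have he : ∑ i ∈ s, (((1 / (s.card : ℝ) : ℝ)) : ℂ) * ee (((((y i).val : ℤ)) : ℝ) * θ) =
      (1 / (s.card : ℂ)) * ∑ i ∈ s, ee (θ * (y i).val) := by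
    rw [mul_sum]
    refine sum_congr rfl fun i _ => ?_
    congr 1
    · push_cast
      rfl
    · congr 1
      push_cast
      ring
  rw [he]
  refine hchar.trans ?_
  -- the first part
  have hp1 : 1 / (δ * q) ≤ 1 / 4 * (1 / 2) ^ N := by
    have h3 : (2 : ℝ) ^ (5 * (N + 1)) ≤ 2 ^ (A * (N + 1)) :=
      pow_le_pow_right₀ (by norm_num) (Nat.mul_le_mul_right _ hA5)
    have h4 : (2 : ℝ) ^ (N + 5) ≤ 2 ^ (5 * (N + 1)) := pow_le_pow_right₀ (by norm_num) (by omega)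
    have h5 : (2 : ℝ) ^ (N + 2) ≤ δ * q := by
      rw [hδ, div_mul_eq_mul_div, le_div_iff₀ (by positivity)]
      calc (2 : ℝ) ^ (N + 2) * 2 ^ (k + 2) = 2 ^ (N + 4) * 2 ^ k := by ring
        _ ≤ 2 ^ (N + 4) * (2 * q) := mul_le_mul_of_nonneg_left hk2 (by positivity)
        _ = 2 ^ (N + 5) * q := by ring
        _ ≤ 2 ^ (A * (N + 1)) * q := mul_le_mul_of_nonneg_right (h4.trans h3) hq0.le
    calc 1 / (δ * q) ≤ 1 / 2 ^ (N + 2) := one_div_le_one_div_of_le (by positivity) h5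
      _ = 1 / 4 * (1 / 2) ^ N := by rw [pow_add, one_div_pow]; ring
  -- the second part
  have hlog : 90 * (2 : ℝ) ^ (c / 2) ≤ Real.log q := h2 q (by omega)
  have hpc : (1 : ℝ) ≤ 2 ^ (c / 2) := Real.one_le_rpow (by norm_num) (by positivity)
  have hl1 : 1 ≤ Real.log q := by linarith
  have hN : (2 : ℝ) ^ N ≤ 2 ^ (c / 2) * (q : ℝ) ^ (c / 2) := by
    have h3 : (N : ℝ) ≤ k * (c / 2) := by
      have h4 : (A : ℝ) * N ≤ k := by exact_mod_cast hN2
      have h5 : 2 / c * (N : ℝ) ≤ k := (mul_le_mul_of_nonneg_right hAc (Nat.cast_nonneg N)).trans h4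
      have h6 : (N : ℝ) = 2 / c * N * (c / 2) := by field_simp
      rw [h6]
      exact mul_le_mul_of_nonneg_right h5 (by positivity)
    rw [← Real.mul_rpow (by norm_num) hq0.le]
    calc (2 : ℝ) ^ N = 2 ^ (N : ℝ) := (Real.rpow_natCast 2 N).symm
      _ ≤ 2 ^ ((k : ℝ) * (c / 2)) := Real.rpow_le_rpow_of_exponent_le (by norm_num) h3
      _ = ((2 : ℝ) ^ k) ^ (c / 2) := by rw [Real.rpow_mul (by norm_num), Real.rpow_natCast]
      _ ≤ (2 * (q : ℝ)) ^ (c / 2) := Real.rpow_le_rpow (by positivity) hk2 (by positivity)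
  have hq2 := h1 q (by omega)
  have hp2 : (q : ℝ) ^ (-c) * (42 + 3 * Real.log q) ≤ 1 / 2 * (1 / 2) ^ N := by
    have h3 : 2 * (2 : ℝ) ^ (c / 2) * (42 + 3 * Real.log q) ≤ (q : ℝ) ^ (c / 2) := by
      refine le_trans ?_ hq2
      nlinarith
    have h4 : (q : ℝ) ^ (-c) * (q : ℝ) ^ (c / 2) * (q : ℝ) ^ (c / 2) = 1 := by
      rw [← Real.rpow_add hq0, ← Real.rpow_add hq0]
      have : -c + c / 2 + c / 2 = 0 := by ring
      rw [this, Real.rpow_zero]
    have h5 : (q : ℝ) ^ (-c) * (42 + 3 * Real.log q) * (2 * 2 ^ N) ≤ 1 := by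
      calc (q : ℝ) ^ (-c) * (42 + 3 * Real.log q) * (2 * 2 ^ N)
          ≤ (q : ℝ) ^ (-c) * (42 + 3 * Real.log q) * (2 * (2 ^ (c / 2) * (q : ℝ) ^ (c / 2))) := by
            apply mul_le_mul_of_nonneg_left _ (by positivity)
            linarith
        _ = (q : ℝ) ^ (-c) * (q : ℝ) ^ (c / 2) * (2 * (2 : ℝ) ^ (c / 2) * (42 + 3 * Real.log q)) := by ring
        _ ≤ (q : ℝ) ^ (-c) * (q : ℝ) ^ (c / 2) * (q : ℝ) ^ (c / 2) :=
            mul_le_mul_of_nonneg_left h3 (by positivity)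
        _ = 1 := h4
    have h6 : 1 / 2 * (1 / 2 : ℝ) ^ N = 1 / (2 * 2 ^ N) := by rw [one_div_pow]; field_simp
    rw [h6, le_div_iff₀ (by positivity)]
    exact h5
  have h7 : (0 : ℝ) ≤ (1 / 2) ^ N := by positivity
  linarith

/-- geometric progressions, with a power saving -/
theorem flat_geo (δ : ℝ) (hδ : 0 < δ) (n : ℕ) : ∃ c : ℝ, 0 < c ∧ ∃ q₀ : ℕ, ∀ q : ℕ, q₀ ≤ q → ∀ [NeZero q], Squarefree q →
    q.primeFactors.card ≤ n → ∀ (A g N : ℕ), Nat.Coprime A q → (∀ p ∈ q.primeFactors, N ≤ orderOf (g : ZMod p)) →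
    (q : ℝ) ^ δ ≤ N → Flat q ((q : ℝ) ^ (-c)) (range N) (fun i => ((A * g ^ i : ℕ) : ZMod q)) := by
  obtain ⟨η, hη, q₁, h1⟩ := Pool.Agent.H82.BC.bc hδ n
  refine ⟨η, hη, q₁ + 3, fun q hq _ hsq hn A g N hA hord hN => ?_⟩
  intro h hh
  have hunit : IsUnit (A : ZMod q) := (ZMod.isUnit_iff_coprime A q).2 hA
  have hne : h * (A : ZMod q) ≠ 0 := by
    intro h0
    exact hh ((IsUnit.mul_left_eq_zero hunit).1 h0)
  have h3 := h1 q q.primeFactors (fun p hp => Nat.prime_of_mem_primeFactors hp)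
    (Nat.prod_primeFactors_of_squarefree hsq).symm hn (by omega) (g : ZMod q) N (fun p hp => by
      rw [Pool.Agent.H82.BC.pr_natCast (Nat.dvd_of_mem_primeFactors hp)]
      exact hord p hp) hN (h * (A : ZMod q)) hne
  have h4 : ∑ i ∈ range N, (ZMod.stdAddChar (h * ((A * g ^ i : ℕ) : ZMod q)) : ℂ) =
      ∑ i ∈ range N, ZMod.stdAddChar (N := q) (h * (A : ZMod q) * (g : ZMod q) ^ i) := by
    refine sum_congr rfl fun i _ => ?_
    push_cast
    rw [mul_assoc]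
  rw [h4, card_range]
  refine h3.trans ?_
  rw [mul_comm]

end Pool.Agent.H39FR
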