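import Pool.Agent.H37CG.Fin
import Pool.Agent.H39FR.Dec

/-!
# One-parameter families of fields over residues with small Fourier coefficients
-/

set_option autoImplicit false

namespace Pool.Agent.H39FR

open Polynomial Finset NumberField Filter
open Pool.Agent.H37CG (Curve fib curve_gen)
open Pool.Agent.N794.CG (scaleB_of dom_of_decays)
open Pool.Agent.N384.MQ (Flat)

open Classical in
/-- families of residues with small Fourier coefficients -/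
theorem flat (c : ℝ) (hc : 0 < c) (r : ℕ) (hr : 1 ≤ r) :
    ∃ δ : ℝ, 0 < δ ∧ ∀ n B U : ℕ, 2 ≤ n → ∃ E N₀ : ℕ, ∀ N : ℕ, N₀ ≤ N → ∀ [NeZero N]
    (ι : Type) (s : Finset ι) (y : ι → ZMod N), Flat N ((N : ℝ) ^ (-c)) s y →
    ∀ G : ℤ[X][X], Curve n B ((N : ℤ) ^ U) G → ∀ ℓ : ℕ, 1 ≤ ℓ → (ℓ : ℝ) ≤ Real.log N ^ U → ∀ Y : ℝ, 1 ≤ Y →
    ∀ (S : Set ℕ) (K : ℕ → Type) [∀ v, Field (K v)] [∀ v, NumberField (K v)],
    (∀ v ∈ S, Module.finrank ℚ (K v) = n ∧ |(discr (K v) : ℝ)| ≤ Y ∧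
      ∃ α : K v, IntermediateField.adjoin ℚ {α} = ⊤ ∧ aeval α (fib G (v : ℤ)) = 0) →
    ∑ i ∈ s, (if (y i).val ∈ S then (Nat.card {x : ClassGroup (𝓞 (K (y i).val)) // x ^ ℓ = 1} : ℝ) ^ r else 0) ≤
      s.card * (Real.log N ^ E * (√Y * max (Y ^ (-(1 / ((n * (n - 1) * ℓ : ℕ) : ℝ)))) ((N : ℝ) ^ (-δ)))) ^ r := by
  obtain ⟨A, q₀, hdec⟩ := flat_decays c hc
  obtain ⟨W, hW, H⟩ := curve_gen 2 le_rfl A (1 / 2) (by norm_num) (by norm_num) r hr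
  have hWr : (0 : ℝ) < W := by exact_mod_cast hW
  refine ⟨1 / W, by positivity, fun n B U hn => ?_⟩
  obtain ⟨E, k₀, J⟩ := H 1 1 le_rfl one_ne_zero n hn B U (2 * U) 1
  refine ⟨2 * E + 0, q₀ + 2 ^ (k₀ + 2) + 32, fun N hN _ ι s y hf G hG ℓ hℓ1 hℓT Y hY S K _ _ hS => ?_⟩
  have hpos : (0 : ℕ) < 2 ^ (k₀ + 2) := by positivity
  have hN1 : 1 ≤ N := by omega
  have hNr : (1 : ℝ) ≤ N := by exact_mod_cast hN1
  obtain ⟨k, hk⟩ : ∃ k, k = Nat.log 2 N + 1 := ⟨_, rfl⟩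
  have hsc := scaleB_of 2 le_rfl N hN1
  rw [← hk] at hsc
  have hkk : k₀ + 2 ≤ k := by
    have h1 : 2 ^ (k₀ + 2) ≤ N := by omega
    have h2 : k₀ + 2 ≤ Nat.log 2 N := Nat.le_log_of_pow_le (by omega) h1
    omega
  rcases s.eq_empty_or_nonempty with rfl | hs
  · simp
  have hc0 : (0 : ℝ) < s.card := by exact_mod_cast hs.card_pos
  have hd := dom_of_decays (hdec N (by omega) ι s hs y hf)
  rw [← hk] at hd
  obtain ⟨S', hS'⟩ : ∃ S' : Set ℤ, S' = {n : ℤ | 0 ≤ n ∧ n ≤ (2 : ℤ) ^ (1 * k) ∧ n.toNat ∈ S} := ⟨_, rfl⟩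
  have hNB : (N : ℤ) ^ U ≤ (2 : ℤ) ^ (U * k) := by
    have h2 : (N : ℤ) ≤ (2 : ℤ) ^ k := by exact_mod_cast hsc.high.le
    rw [mul_comm U k, pow_mul]
    exact pow_le_pow_left₀ (by positivity) h2 U
  have h1 := J k (by omega) G ⟨hG.monic, hG.deg, hG.degx, fun i j => (hG.height i j).trans hNB, hG.irr⟩ ℓ hℓ1
    (hsc.nat_le le_rfl hN1 (by omega) U ℓ hℓT) Y hY S' (fun n => K n.toNat) (by
    intro n hn
    rw [hS'] at hn
    obtain ⟨h1, h2, h3⟩ := hn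
    obtain ⟨h4, h5, α, h6, h7⟩ := hS _ h3
    refine ⟨by rw [abs_of_nonneg h1]; exact h2, h4, h5, α, h6, ?_⟩
    rw [Int.toNat_of_nonneg h1] at h7
    exact h7) 1 ι s (fun _ => 1 / (s.card : ℝ))
    (fun i => ((y i).val : ℤ)) le_rfl (fun i _ => by positivity) (by
      rw [sum_const, nsmul_eq_mul, mul_one_div, div_self hc0.ne']) hd
  have e2 : ∑ i ∈ s, (if (y i).val ∈ S then (Nat.card {x : ClassGroup (𝓞 (K (y i).val)) // x ^ ℓ = 1} : ℝ) ^ r else 0) =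
      s.card * ∑ i ∈ s, (1 / (s.card : ℝ)) *
        (if (((y i).val : ℕ) : ℤ) ∈ S' then
          (Nat.card {x : ClassGroup (𝓞 (K ((((y i).val : ℕ) : ℤ)).toNat)) // x ^ ℓ = 1} : ℝ) ^ r else 0) := by
    rw [mul_sum]
    apply sum_congr rfl
    intro i hi
    have hvN : (y i).val < N := ZMod.val_lt _
    have h2 : (((y i).val : ℕ) : ℤ) ∈ S' ↔ (y i).val ∈ S := by
      rw [hS', Set.mem_ofPred_eq, Int.toNat_natCast, one_mul]
      constructor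
      · exact fun h => h.2.2
      · intro h
        refine ⟨by positivity, ?_, h⟩
        exact_mod_cast (hvN.trans hsc.high).le
    simp only [Int.toNat_natCast]
    rw [← mul_assoc, mul_one_div, div_self hc0.ne', one_mul]
    by_cases hvS : (y i).val ∈ S
    · rw [if_pos hvS, if_pos (h2.2 hvS)]
    · rw [if_neg hvS, if_neg (fun h => hvS (h2.1 h))]
  rw [e2]
  apply mul_le_mul_of_nonneg_left _ hc0.le
  have h3 := hsc.bound le_rfl (by omega) E W r 0 hr Y (1 / ((n * (n - 1) * ℓ : ℕ) : ℝ)) hY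
  rw [pow_zero] at h3
  have e4 : (((2 : ℕ) : ℝ)) = 2 := by norm_num
  rw [e4] at h1 h3
  exact h1.trans h3

end Pool.Agent.H39FR
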