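import Pool.Agent.H39FR.Main

/-!
# The `H`-moments of the class groups of the quadratic fields `ℚ(√f(v))`, `v` in a set of residues with small Fourier coefficients

The sets of the earlier results (`PolynomialValues`, `AutomaticValues`, `LongRangeGibbsMoments`) are given by conditions on the
digits of `v`. Here `v` runs through any family of residues `0 ≤ v < q` modulo an integer `q` whose Fourier coefficients have a
power saving. By the theorem of Bourgain, Glibichuk and Konyagin and its extension by Bourgain and Chang to moduli with few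
prime factors (in the library of this project) these are for example the cosets of all the subgroups of order at least
`p ^ δ` of the multiplicative group modulo a prime `p`, and all geometric progressions of this length.

From Mathlib: `𝓞 K`, `ClassGroup`, `NumberField.discr`: the ring of integers, the class group and the discriminant;
`CommGroup.primaryComponent G p`: the elements of `p`-power order; `ZMod.stdAddChar`: the additive character
`j ↦ exp (2 π i j / q)` of the integers modulo `q`; `ZMod.val`: the least residue; `orderOf`: the order of an element of a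
monoid (`0` if it is not of finite order).

Method: the exponential sum of such a family at a real frequency at distance at least `2 ^ L / q` from the integers is at most
`2 ^ (- L) + q ^ (- c) log q` up to constants (Fourier expansion modulo `q`). If `2 ^ j θ` is far from the integers for `L` of
the `j ≤ log q / log 2` then this is the case. So the family is a random integer with a decaying characteristic function
in the sense of the library (`Pool.Agent.R459.Eq.Decays`). Hence many small primes split in `ℚ(√f(v))` for almost all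
members `v`, with a high power saving in the number of the exceptions at each scale
(`Pool.Agent.H37CG.curve_gen`), which gives the moments by the argument of Ellenberg and Venkatesh and a count of surjections.
-/

set_option autoImplicit false

namespace Pool.Agent.Results.MP_0f260b_nt.FlatResidues

open Finset NumberField Filter Polynomial

/-- The Fourier coefficients of the residues `y i`, `i ∈ s`, modulo `q` at the nonzero frequencies are at most
`η` times the number of the residues: `|∑ i ∈ s, e(h y_i / q)| ≤ η |s|` for all `h ≠ 0` modulo `q`. -/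
def Flat {ι : Type} (q : ℕ) [NeZero q] (η : ℝ) (s : Finset ι) (y : ι → ZMod q) : Prop :=
  ∀ h : ZMod q, h ≠ 0 → ‖∑ i ∈ s, (ZMod.stdAddChar (h * y i) : ℂ)‖ ≤ η * s.card

/-- `#Sur(Cl(K)[p^∞], H)` for the group `H`, the product of the cyclic groups of orders `p ^ e i`. -/
noncomputable def numSur (K : Type) [Field K] [NumberField K] (p : ℕ) {r : ℕ} (e : Fin r → ℕ) : ℕ :=
  Nat.card {φ : CommGroup.primaryComponent (ClassGroup (𝓞 K)) p →* (∀ i : Fin r, Multiplicative (ZMod (p ^ e i))) //
    Function.Surjective φ}

open Classical in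
/-- **(1)** Let `c > 0` and `r ≥ 1`. There is `δ > 0` such that for all `D` and `U` there are `B`, `N₀` such that the following
holds for all `N ≥ N₀`, all finite families `y i`, `i ∈ s`, of residues modulo `N` whose Fourier coefficients at the nonzero
frequencies are at most `N ^ (- c) |s|`, all integral polynomials `f` of degree at most `D`, not squares of polynomials over
`ℂ`, whose coefficients are at most `N ^ U` in absolute value, all primes `l` and all `m` with `l ^ m ≤ (log N) ^ U`, all
groups `H` which are products of `r` cyclic groups of orders `l ^ e i` with `e i ≤ m`, and all `Y ≥ 1`.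

Let `K_v = ℚ(√f(v))` be quadratic fields with discriminant of absolute value at most `Y`, for the integers `v` in a set
`S`. Then the mean value over the family of the number of the surjective homomorphisms from the `l`-part of the class group of
`K_v`, `v = y i`, `0 ≤ v < N`, onto `H` (with `0` if `v` is not in `S`) is at most
`((log N) ^ B Y ^ (1 / 2) max (Y ^ (-1 / (2 l ^ m)), N ^ (- δ))) ^ r`.

**(2)** Examples: for all `δ > 0` and `n` there is `c > 0` such that for all large squarefree `q` with at most `n` prime
factors the geometric progression `A g ^ i`, `0 ≤ i < N`, satisfies the condition of (1) modulo `q`, if `A` is coprime to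
`q`, `N ≥ q ^ δ` and the order of `g` modulo every prime factor of `q` is at least `N`; so do all the cosets of the subgroup
generated by `g` if `q` is a prime and `N` is the order of `g`. -/
theorem result :
    (∀ c : ℝ, 0 < c → ∀ r : ℕ, 1 ≤ r → ∃ δ : ℝ, 0 < δ ∧ ∀ D U : ℕ, ∃ B N₀ : ℕ, ∀ N : ℕ, N₀ ≤ N → ∀ [NeZero N]
      (ι : Type) (s : Finset ι) (y : ι → ZMod N), Flat N ((N : ℝ) ^ (-c)) s y →
      ∀ f : ℤ[X], f.natDegree ≤ D → ¬ IsSquare (f.map (Int.castRingHom ℂ)) → (∀ i, |f.coeff i| ≤ (N : ℤ) ^ U) →
      ∀ (l m : ℕ) (e : Fin r → ℕ), l.Prime → (l : ℝ) ^ m ≤ Real.log N ^ U → (∀ i, e i ≤ m) → ∀ Y : ℝ, 1 ≤ Y →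
      ∀ (S : Set ℕ) (K : ℕ → Type) [∀ v, Field (K v)] [∀ v, NumberField (K v)],
      (∀ v ∈ S, Module.finrank ℚ (K v) = 2 ∧ |(discr (K v) : ℝ)| ≤ Y ∧
        ∃ α : K v, IntermediateField.adjoin ℚ {α} = ⊤ ∧ α ^ 2 = ((f.eval (v : ℤ) : ℤ) : K v)) →
      ∑ i ∈ s, (if (y i).val ∈ S then (numSur (K (y i).val) l e : ℝ) else 0) ≤ s.card *
        (Real.log N ^ B * (√Y * max (Y ^ (-(1 / (2 * (l : ℝ) ^ m)))) ((N : ℝ) ^ (-δ)))) ^ r) ∧
    (∀ δ : ℝ, 0 < δ → ∀ n : ℕ, ∃ c : ℝ, 0 < c ∧ ∃ q₀ : ℕ, ∀ q : ℕ, q₀ ≤ q → ∀ [NeZero q], Squarefree q →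
      q.primeFactors.card ≤ n → ∀ A g N : ℕ, Nat.Coprime A q → (∀ p ∈ q.primeFactors, N ≤ orderOf (g : ZMod p)) →
      (q : ℝ) ^ δ ≤ N → Flat q ((q : ℝ) ^ (-c)) (range N) (fun i => ((A * g ^ i : ℕ) : ZMod q))) := by
  refine ⟨fun c hc r hr => ?_, fun δ hδ n => Pool.Agent.H39FR.flat_geo δ hδ n⟩
  obtain ⟨δ, hδ, H⟩ := Pool.Agent.H39FR.flat c hc r hr
  refine ⟨δ, hδ, fun D U => ?_⟩
  obtain ⟨B, N₀, J⟩ := H 2 D U le_rfl
  refine ⟨B, N₀ + 1, fun N hN _ ι s y hf f hfD hsq hco l m e hl hlT he Y hY S K _ _ hS => ?_⟩
  have hN1 : (1 : ℤ) ≤ N := by exact_mod_cast (by omega : 1 ≤ N)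
  have h1 := J N (by omega) ι s y hf (X ^ 2 - C f) (Pool.Agent.H37CG.curve_sq f D hfD _ (one_le_pow₀ hN1) hco hsq)
    (l ^ m) (Nat.one_le_pow _ _ hl.pos) (by push_cast; exact hlT) Y hY S K (by
    intro v hv
    obtain ⟨h2, h3, α, h4, h5⟩ := hS v hv
    refine ⟨h2, h3, α, h4, ?_⟩
    rw [Pool.Agent.H37CG.fib_sq, map_sub, map_pow, aeval_X, aeval_C, h5, algebraMap_int_eq, eq_intCast, sub_self])
  have e1 : ((2 * (2 - 1) * l ^ m : ℕ) : ℝ) = 2 * (l : ℝ) ^ m := by push_cast; ring
  rw [e1] at h1
  refine le_trans (sum_le_sum fun i _ => ?_) h1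
  by_cases hv : (y i).val ∈ S
  · rw [if_pos hv, if_pos hv]
    exact Pool.Agent.N794.CG.numSur_le (K (y i).val) l hl e m he
  · rw [if_neg hv, if_neg hv]

end Pool.Agent.Results.MP_0f260b_nt.FlatResidues
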